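import Pool.Agent.LeoD.AlgStmts
import Pool.Agent.Helper24_LeoG.Apl
import Pool.Agent.Helper75_LeoD.Lcg

/-!
Squad leod, module APO: integral elements of the completion are approximated by integers; small
integers are in powers of the prime.
-/

set_option autoImplicit false

open NumberField IsDedekindDomain WithZero Module
open Pool.Agent.Helper85_Leo Pool.Agent.Leo3 Pool.Agent.LeoK Pool.Agent.Leo3.H93
open Pool.Agent.LeoG.H24

namespace Pool.Agent.LeoD.H24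

variable {k : Type} [Field k] [NumberField k]

/-- an element of `k` which is integral at `ψ` is approximated by an integer. -/
lemma approx_int (p : HeightOneSpectrum (𝓞 k)) (ψ : k →+* Om) (hψ : Ov p ψ) (x : k)
    (hx : ‖ψ x‖ ≤ 1) (N : ℕ) : ∃ y : 𝓞 k, ‖ψ (y : k) - ψ x‖ ≤ (3 : ℝ)⁻¹ ^ N := by
  obtain ⟨a, b, hb, hab⟩ := lz p x (le_of_norm_le p ψ hψ x hx)
  obtain ⟨e, he⟩ := small p ψ hψ N
  obtain ⟨b', hb'⟩ := Pool.Agent.LeoD.H75.inv_mod p e hb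
  refine ⟨a * b', ?_⟩
  have h1 : ψ ((a * b' : 𝓞 k) : k) - ψ x = ψ x * ψ ((b * b' - 1 : 𝓞 k) : k) := by
    rw [← map_sub, ← map_mul]
    congr 1
    have h2 : ((a * b' : 𝓞 k) : k) = (a : k) * b' := rfl
    have h3 : ((b * b' - 1 : 𝓞 k) : k) = (b : k) * b' - 1 := rfl
    rw [h2, h3, ← hab]
    ring
  rw [h1, norm_mul]
  calc ‖ψ x‖ * ‖ψ ((b * b' - 1 : 𝓞 k) : k)‖ ≤ 1 * (3 : ℝ)⁻¹ ^ N :=
        mul_le_mul hx (he _ hb') (norm_nonneg _) zero_le_one
    _ = (3 : ℝ)⁻¹ ^ N := one_mul _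

/-- small integers are in powers of the prime. -/
lemma mem_pow_of_small (p : HeightOneSpectrum (𝓞 k)) (ψ : k →+* Om) (h3 : (3 : 𝓞 k) ∈ p.asIdeal)
    (hψ : Ov p ψ) (x : 𝓞 k) (N : ℕ) (hx : ‖ψ (x : k)‖ ≤ (3 : ℝ)⁻¹ ^ N) : x ∈ p.asIdeal ^ N := by
  have h1 : p.valuation k (x : k) ≤ p.valuation k ((3 : k) ^ N) := by
    refine val_le_val p ψ hψ _ _ (pow_ne_zero _ (by norm_num)) ?_
    rw [map_pow, map_ofNat, norm_three_pow]
    exact hx
  have h5 : p.valuation k (x : k) = p.intValuation x := p.valuation_of_algebraMap x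
  have h6 : p.valuation k ((3 : k) ^ N) = p.intValuation ((3 : 𝓞 k) ^ N) := by
    have h7 : (algebraMap (𝓞 k) k) ((3 : 𝓞 k) ^ N) = (3 : k) ^ N := by
      rw [map_pow, map_ofNat]
    have h8 : p.valuation k (algebraMap (𝓞 k) k ((3 : 𝓞 k) ^ N)) = p.intValuation (3 ^ N) :=
      p.valuation_of_algebraMap (K := k) ((3 : 𝓞 k) ^ N)
    rw [h7] at h8
    exact h8
  rw [h5, h6] at h1
  rw [← p.intValuation_le_pow_iff_mem]
  exact h1.trans ((p.intValuation_le_pow_iff_mem _ _).2 (Ideal.pow_mem_pow h3 N))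

theorem apo : ApoStmt := by
  intro k _ _ p ψ h3 hψ
  refine ⟨fun A N hA hA1 => ?_, fun x N hx => mem_pow_of_small p ψ h3 hψ x N hx⟩
  obtain ⟨x, hx⟩ := Pool.Agent.LeoK.H71.apx k ψ A hA N
  have hN1 : (3 : ℝ)⁻¹ ^ N ≤ 1 := pow_le_one₀ (by norm_num) (by norm_num)
  have hx1 : ‖ψ x‖ ≤ 1 := by
    have h4 : ψ x = (ψ x - A) + A := by ring
    rw [h4]
    exact (IsUltrametricDist.norm_add_le_max _ _).trans (max_le (hx.trans hN1) hA1)
  obtain ⟨y, hy⟩ := approx_int p ψ hψ x hx1 N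
  refine ⟨y, ?_⟩
  have h5 : ψ (y : k) - A = (ψ (y : k) - ψ x) + (ψ x - A) := by ring
  rw [h5]
  exact (IsUltrametricDist.norm_add_le_max _ _).trans (max_le hy hx)

end Pool.Agent.LeoD.H24
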