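import Pool.Agent.Helper24_LeoD.Apo
import Pool.Agent.Helper75_LeoK.Tools

/-!
Squad leod, module INT: elements of `K` that are integral at the two embeddings above `ψ`;
approximation of `A + B s`; small integers of `K`.
-/

set_option autoImplicit false

open NumberField IsDedekindDomain WithZero Module Polynomial
open Pool.Agent.Helper85_Leo Pool.Agent.Leo3 Pool.Agent.LeoK Pool.Agent.Leo3.H93
open Pool.Agent.LeoG.H24

namespace Pool.Agent.LeoD.H24

variable {k K : Type} [Field k] [NumberField k] [Field K] [NumberField K] [Algebra k K]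
  {m : 𝓞 k} {s : 𝓞 K} {c : K ≃ₐ[k] K}

lemma qspan (h : QExt k K m s c) (x : K) : ∃ a b : k, x = algebraMap k K a + algebraMap k K b * s :=
  Pool.Agent.LeoK.H75.quad_span h.two (fun y hy => h.nsq y ((algebraMap k K).injective (by
    rw [map_pow, hy, h.sq]))) x

/-- a root of a monic quadratic polynomial with integral coefficients is integral. -/
lemma int_of_quad (y : K) (P Q : 𝓞 k)
    (h : y ^ 2 - algebraMap k K (P : k) * y + algebraMap k K (Q : k) = 0) : IsIntegral ℤ y := by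
  have h1 : IsIntegral (𝓞 k) y := by
    refine ⟨X ^ 2 - C P * X + C Q, ?_, ?_⟩
    · have e : (X ^ 2 - C P * X + C Q : (𝓞 k)[X]) = X ^ 2 + (-(C P * X) + C Q) := by ring
      rw [e]
      apply monic_X_pow_add
      refine lt_of_le_of_lt (degree_add_le _ _) ?_
      rw [degree_neg]
      apply max_lt
      · refine lt_of_le_of_lt (degree_C_mul_X_le P) ?_
        norm_num
      · refine lt_of_le_of_lt degree_C_le ?_
        norm_num
    · rw [← aeval_def]
      simp only [map_add, map_sub, map_mul, map_pow, aeval_X, aeval_C]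
      rw [IsScalarTower.algebraMap_apply (𝓞 k) k K, IsScalarTower.algebraMap_apply (𝓞 k) k K]
      exact h
  exact isIntegral_trans (R := ℤ) (A := 𝓞 k) _ h1

lemma int_one (h : QExt k K m s c) (p : HeightOneSpectrum (𝓞 k)) (φ : K →+* Om)
    (hψ : Ov p (φ.comp (algebraMap k K))) (x : K) (h1 : ‖φ x‖ ≤ 1) (h2 : ‖φ (c x)‖ ≤ 1) :
    ∃ (d : 𝓞 k) (y : 𝓞 K), d ∉ p.asIdeal ∧ algebraMap k K (d : k) * x = y := by
  obtain ⟨a, b, hab⟩ := qspan h x
  have hc : c x = algebraMap k K a - algebraMap k K b * s := by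
    rw [hab, map_add, map_mul, c.commutes, c.commutes, h.conj]
    ring
  have hT : algebraMap k K (2 * a) = x + c x := by
    rw [hc, hab, map_mul, map_ofNat]
    ring
  have hN : algebraMap k K (a ^ 2 - 3 * (m : k) * b ^ 2) = x * c x := by
    have h3 : x * c x = algebraMap k K a ^ 2 - (s : K) ^ 2 * algebraMap k K b ^ 2 := by
      rw [hc, hab]
      ring
    rw [h3, h.sq, map_sub, map_pow, map_mul, map_pow]
  have hT1 : ‖(φ.comp (algebraMap k K)) (2 * a)‖ ≤ 1 := by
    rw [RingHom.comp_apply, hT, map_add]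
    exact (IsUltrametricDist.norm_add_le_max _ _).trans (max_le h1 h2)
  have hN1 : ‖(φ.comp (algebraMap k K)) (a ^ 2 - 3 * (m : k) * b ^ 2)‖ ≤ 1 := by
    rw [RingHom.comp_apply, hN, map_mul, norm_mul]
    exact mul_le_one₀ h1 (norm_nonneg _) h2
  obtain ⟨a1, b1, hb1, hab1⟩ := lz p _ (le_of_norm_le p _ hψ _ hT1)
  obtain ⟨a2, b2, hb2, hab2⟩ := lz p _ (le_of_norm_le p _ hψ _ hN1)
  have hd : b1 * b2 ∉ p.asIdeal := fun hcon => by
    rcases p.isPrime.mem_or_mem hcon with h4 | h4
    · exact hb1 h4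
    · exact hb2 h4
  have hT2 : (x + c x) * algebraMap k K (b1 : k) = algebraMap k K (a1 : k) := by
    rw [← hT, ← map_mul, hab1]
  have hN2 : (x * c x) * algebraMap k K (b2 : k) = algebraMap k K (a2 : k) := by
    rw [← hN, ← map_mul, hab2]
  have hi : IsIntegral ℤ (algebraMap k K ((b1 * b2 : 𝓞 k) : k) * x) := by
    refine int_of_quad _ (b2 * a1) (b1 ^ 2 * b2 * a2) ?_
    have e1 : algebraMap k K ((b1 * b2 : 𝓞 k) : k) =
        algebraMap k K (b1 : k) * algebraMap k K (b2 : k) := by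
      rw [← map_mul]
      rfl
    have e2 : algebraMap k K ((b2 * a1 : 𝓞 k) : k) =
        algebraMap k K (b2 : k) * algebraMap k K (a1 : k) := by
      rw [← map_mul]
      rfl
    have e3 : algebraMap k K ((b1 ^ 2 * b2 * a2 : 𝓞 k) : k) =
        algebraMap k K (b1 : k) ^ 2 * algebraMap k K (b2 : k) * algebraMap k K (a2 : k) := by
      rw [← map_pow, ← map_mul, ← map_mul]
      rfl
    rw [e1, e2, e3, ← hT2, ← hN2]
    ring
  exact ⟨b1 * b2, ⟨_, hi⟩, hd, rfl⟩

theorem int_ : IntStmt := by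
  intro k K _ _ _ _ _ m s c h p φ h3 hψ
  have key := fun x h1 h2 => int_one h p φ hψ x h1 h2
  refine ⟨key, fun A B N hA hB h1 h2 => ?_, fun x N hx1 hx2 => ?_⟩
  · obtain ⟨A1, hA1⟩ := Pool.Agent.LeoK.H71.apx k (φ.comp (algebraMap k K)) A hA N
    obtain ⟨B1, hB1⟩ := Pool.Agent.LeoK.H71.apx k (φ.comp (algebraMap k K)) B hB N
    rw [RingHom.comp_apply] at hA1 hB1
    have hN1 : (3 : ℝ)⁻¹ ^ N ≤ 1 := pow_le_one₀ (by norm_num) (by norm_num)
    have hN0 : (0 : ℝ) ≤ (3 : ℝ)⁻¹ ^ N := by positivity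
    have hs : ‖φ (s : K)‖ ≤ 1 := norm_embedding_le_one φ s
    have hBs : ‖(φ (algebraMap k K B1) - B) * φ s‖ ≤ (3 : ℝ)⁻¹ ^ N := by
      rw [norm_mul]
      calc ‖φ (algebraMap k K B1) - B‖ * ‖φ (s : K)‖ ≤ (3 : ℝ)⁻¹ ^ N * 1 :=
            mul_le_mul hB1 hs (norm_nonneg _) hN0
        _ = _ := mul_one _
    set X : K := algebraMap k K A1 + algebraMap k K B1 * s with hX
    have hcX : c X = algebraMap k K A1 - algebraMap k K B1 * s := by
      rw [hX, map_add, map_mul, c.commutes, c.commutes, h.conj]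
      ring
    have e1 : ‖φ X - (A + B * φ s)‖ ≤ (3 : ℝ)⁻¹ ^ N := by
      have h4 : φ X - (A + B * φ s) =
          (φ (algebraMap k K A1) - A) + (φ (algebraMap k K B1) - B) * φ s := by
        rw [hX, map_add, map_mul]
        ring
      rw [h4]
      exact (IsUltrametricDist.norm_add_le_max _ _).trans (max_le hA1 hBs)
    have e2 : ‖φ (c X) - (A - B * φ s)‖ ≤ (3 : ℝ)⁻¹ ^ N := by
      have h4 : φ (c X) - (A - B * φ s) =
          (φ (algebraMap k K A1) - A) + -((φ (algebraMap k K B1) - B) * φ s) := by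
        rw [hcX, map_sub, map_mul]
        ring
      rw [h4]
      exact (IsUltrametricDist.norm_add_le_max _ _).trans (max_le hA1 (by rwa [norm_neg]))
    have f1 : ‖φ X‖ ≤ 1 := by
      have h4 : φ X = (φ X - (A + B * φ s)) + (A + B * φ s) := by ring
      rw [h4]
      exact (IsUltrametricDist.norm_add_le_max _ _).trans (max_le (e1.trans hN1) h1)
    have f2 : ‖φ (c X)‖ ≤ 1 := by
      have h4 : φ (c X) = (φ (c X) - (A - B * φ s)) + (A - B * φ s) := by ring
      rw [h4]
      exact (IsUltrametricDist.norm_add_le_max _ _).trans (max_le (e2.trans hN1) h2)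
    obtain ⟨d, y, hd, hdy⟩ := key X f1 f2
    obtain ⟨e, he⟩ := small p _ hψ N
    obtain ⟨d', hd'⟩ := Pool.Agent.LeoD.H75.inv_mod p e hd
    have hs1 := he _ hd'
    rw [RingHom.comp_apply] at hs1
    set x : 𝓞 K := algebraMap (𝓞 k) (𝓞 K) d' * y with hx
    have hxK : (x : K) = algebraMap k K (d' : k) * (algebraMap k K (d : k) * X) := by
      rw [hdy]
      rfl
    have hxX : (x : K) - X = algebraMap k K ((d * d' - 1 : 𝓞 k) : k) * X := by
      have e3 : algebraMap k K ((d * d' - 1 : 𝓞 k) : k) =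
          algebraMap k K (d : k) * algebraMap k K (d' : k) - 1 := by
        rw [← map_mul, ← (algebraMap k K).map_one, ← map_sub]
        rfl
      rw [hxK, e3]
      ring
    refine ⟨x, ?_, ?_⟩
    · have h4 : φ (x : K) - (A + B * φ s) = φ ((x : K) - X) + (φ X - (A + B * φ s)) := by
        rw [map_sub]
        ring
      rw [h4]
      refine (IsUltrametricDist.norm_add_le_max _ _).trans (max_le ?_ e1)
      rw [hxX, map_mul, norm_mul]
      calc _ ≤ (3 : ℝ)⁻¹ ^ N * 1 := mul_le_mul hs1 f1 (norm_nonneg _) hN0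
        _ = _ := mul_one _
    · have h4 : φ (c (x : K)) - (A - B * φ s) =
          φ (c ((x : K) - X)) + (φ (c X) - (A - B * φ s)) := by
        rw [map_sub, map_sub]
        ring
      rw [h4]
      refine (IsUltrametricDist.norm_add_le_max _ _).trans (max_le ?_ e2)
      rw [hxX, map_mul, c.commutes, map_mul, norm_mul]
      calc _ ≤ (3 : ℝ)⁻¹ ^ N * 1 := mul_le_mul hs1 f2 (norm_nonneg _) hN0
        _ = _ := mul_one _
  · have h3K : ((3 : K) ^ N) ≠ 0 := pow_ne_zero _ (by norm_num)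
    have g1 : ‖φ ((x : K) / 3 ^ N)‖ ≤ 1 := by
      rw [map_div₀, norm_div, map_pow, map_ofNat, norm_three_pow, div_le_one (by positivity)]
      exact hx1
    have g2 : ‖φ (c ((x : K) / 3 ^ N))‖ ≤ 1 := by
      rw [map_div₀, map_div₀, norm_div, map_pow, map_pow, map_ofNat, map_ofNat, norm_three_pow,
        div_le_one (by positivity)]
      exact hx2
    obtain ⟨d, y, hd, hdy⟩ := key _ g1 g2
    obtain ⟨d', hd'⟩ := Pool.Agent.LeoD.H75.inv_mod p N hd
    have hdx : algebraMap (𝓞 k) (𝓞 K) d * x = 3 ^ N * y := by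
      apply RingOfIntegers.coe_injective
      have e1 : algebraMap (𝓞 K) K (algebraMap (𝓞 k) (𝓞 K) d * x) =
          algebraMap k K (d : k) * x := rfl
      have e2 : algebraMap (𝓞 K) K (3 ^ N * y) = 3 ^ N * (y : K) := by
        rw [map_mul, map_pow, map_ofNat]
      rw [e1, e2, ← hdy]
      field_simp
    have hx3 : x = algebraMap (𝓞 k) (𝓞 K) (3 ^ N) * (algebraMap (𝓞 k) (𝓞 K) d' * y) -
        algebraMap (𝓞 k) (𝓞 K) (d * d' - 1) * x := by
      rw [map_sub, map_mul, map_one, map_pow, map_ofNat]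
      linear_combination (algebraMap (𝓞 k) (𝓞 K) d') * hdx
    rw [hx3]
    refine sub_mem ?_ ?_
    · exact Ideal.mul_mem_right _ _ (Ideal.mem_map_of_mem _ (Ideal.pow_mem_pow h3 N))
    · exact Ideal.mul_mem_right _ _ (Ideal.mem_map_of_mem _ hd')

end Pool.Agent.LeoD.H24
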