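import Pool.Agent.LeoD.LocStmts

/-!
Squad leod: tools for the densities at the primes above 3.
-/

set_option autoImplicit false

open NumberField IsDedekindDomain Module
open Pool.Agent.LeoK Pool.Agent.LeoG Pool.Agent.LeoC

namespace Pool.Agent.LeoD.H24

section alg

variable {A : Type} [CommRing A]

lemma mm_congr (I : Ideal A) (F G : Q4 A) (h : ∀ i, F i - G i ∈ I) : mm F - mm G ∈ I := by
  have h' : ∀ i, Ideal.Quotient.mk I (F i) = Ideal.Quotient.mk I (G i) := fun i =>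
    Ideal.Quotient.eq.2 (h i)
  rw [← Ideal.Quotient.eq]
  simp only [mm, dsc, map_neg, map_add, map_sub, map_mul, map_pow, map_ofNat, h']

lemma gval_congr (I : Ideal A) (F G : Q4 A) (h : ∀ i, F i - G i ∈ I) (x y : A) :
    gval F x y - gval G x y ∈ I := by
  have h' : ∀ i, Ideal.Quotient.mk I (F i) = Ideal.Quotient.mk I (G i) := fun i =>
    Ideal.Quotient.eq.2 (h i)
  rw [← Ideal.Quotient.eq]
  simp only [gval, map_add, map_mul, map_pow, h']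

lemma mm_smul (t : A) (f : Q4 A) : mm (fun i => t * f i) = t ^ 4 * mm f := by
  simp only [mm, dsc]
  ring

lemma gval_smul (t : A) (f : Q4 A) (x y : A) : gval (fun i => t * f i) x y = t * gval f x y := by
  simp only [gval]
  ring

lemma mm_gact (f : Q4 A) (x y z w : A) : mm (gact f x y z w) = (x * w - y * z) ^ 6 * mm f := by
  simp only [mm, dsc, gact, gval, Matrix.cons_val]
  ring

end alg

variable {k : Type} [Field k] [NumberField k]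

lemma ordp_pow (hv : VpiStmt) (p : HeightOneSpectrum (𝓞 k)) (x : 𝓞 k) (hx : x ≠ 0) (n : ℕ) :
    ordp p (Ideal.span {x ^ (n + 1)}) = (n + 1) * ordp p (Ideal.span {x}) := by
  induction n with
  | zero => rw [zero_add, pow_one, one_mul]
  | succ n ih =>
    have h1 : Ideal.span {x ^ (n + 1 + 1)} = Ideal.span {x ^ (n + 1)} * Ideal.span {x} := by
      rw [Ideal.span_singleton_mul_span_singleton, ← pow_succ]
    rw [h1, (hv k).2.1 p _ _ (by rw [Ne, Ideal.span_singleton_eq_bot]; exact pow_ne_zero _ hx)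
      (by rw [Ne, Ideal.span_singleton_eq_bot]; exact hx), ih]
    ring

/-- cancellation of `3 ^ 8`. -/
lemma cancel3 (hv : VpiStmt) (p : HeightOneSpectrum (𝓞 k)) (y : 𝓞 k) (n : ℕ)
    (h : 3 ^ 8 * y ∈ p.asIdeal ^ (8 * ordp p (Ideal.span {(3 : 𝓞 k)}) + n)) :
    y ∈ p.asIdeal ^ n := by
  refine (hv k).2.2.1 p (3 ^ 8) y n (by norm_num) ?_
  rw [ordp_pow hv p 3 (by norm_num) 7]
  exact h

lemma three_mem (hv : VpiStmt) (p : HeightOneSpectrum (𝓞 k)) :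
    (3 : 𝓞 k) ∈ p.asIdeal ^ ordp p (Ideal.span {(3 : 𝓞 k)}) := by
  have h := ((hv k).1 p (Ideal.span {(3 : 𝓞 k)}) (ordp p (Ideal.span {(3 : 𝓞 k)})) (by
    rw [Ne, Ideal.span_singleton_eq_bot]; norm_num)).2 le_rfl
  exact (Ideal.span_singleton_le_iff_mem _).1 h

lemma nine_mem (hv : VpiStmt) (p : HeightOneSpectrum (𝓞 k)) :
    (9 : 𝓞 k) ∈ p.asIdeal ^ (2 * ordp p (Ideal.span {(3 : 𝓞 k)})) := by
  have h := Ideal.mul_mem_mul (three_mem hv p) (three_mem hv p)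
  rw [← pow_add] at h
  have e : (9 : 𝓞 k) = 3 * 3 := by norm_num
  rw [e, two_mul]
  exact h

lemma three8_mem (hv : VpiStmt) (p : HeightOneSpectrum (𝓞 k)) :
    (3 : 𝓞 k) ^ 8 ∈ p.asIdeal ^ (8 * ordp p (Ideal.span {(3 : 𝓞 k)})) := by
  have h := Ideal.pow_mem_pow (three_mem hv p) 8
  rw [← pow_mul, mul_comm (ordp p (Ideal.span {(3 : 𝓞 k)}))] at h
  exact h

lemma ordp_eq_zero (hv : VpiStmt) (p : HeightOneSpectrum (𝓞 k)) (I : Ideal (𝓞 k)) (hI : I ≠ ⊥)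
    (h : ¬ I ≤ p.asIdeal) : ordp p I = 0 := by
  by_contra hne
  apply h
  have h1 := ((hv k).1 p I 1 hI).2 (Nat.one_le_iff_ne_zero.2 hne)
  rwa [pow_one] at h1

lemma H75inv (p : HeightOneSpectrum (𝓞 k)) (n : ℕ) {x : 𝓞 k} (hx : x ∉ p.asIdeal) :
    ∃ t : 𝓞 k, x * t - 1 ∈ p.asIdeal ^ n := by
  have h1 : Ideal.span {x} ⊔ p.asIdeal ^ n = ⊤ := by
    apply Ideal.sup_pow_eq_top
    have hmax : p.asIdeal.IsMaximal := p.isMaximal
    rw [sup_comm]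
    by_contra hne
    have h2 := hmax.eq_of_le hne le_sup_left
    apply hx
    rw [h2]
    exact Ideal.mem_sup_right (Ideal.mem_span_singleton_self x)
  have h2 : (1 : 𝓞 k) ∈ Ideal.span {x} ⊔ p.asIdeal ^ n := by rw [h1]; trivial
  obtain ⟨a, ha, b, hb, hab⟩ := Submodule.mem_sup.1 h2
  obtain ⟨c, rfl⟩ := Ideal.mem_span_singleton'.1 ha
  refine ⟨c, ?_⟩
  have h3 : x * c - 1 = -b := by linear_combination hab
  rw [h3]
  exact neg_mem hb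

/-- the first kind: `F = π ^ (2 e) f`. -/
lemma first (hv : VpiStmt) (p : HeightOneSpectrum (𝓞 k)) (π : 𝓞 k) (hπ : Unf p π) (M a : ℕ)
    (haM : a ≤ M) (h8 : 8 * ordp p (Ideal.span {(3 : 𝓞 k)}) ≤ a) (F : Q4 (𝓞 k)) (B : BFr k)
    (m : 𝓞 k) (hm : mm F = (B.kap : 𝓞 k) * m)
    (h : ∀ i, F i ∈ Ideal.span {(9 : 𝓞 k)} ⊔ p.asIdeal ^ M) :
    ∃ f : Q4 (𝓞 k),
      (∀ i, F i - π ^ (2 * ordp p (Ideal.span {(3 : 𝓞 k)})) * f i ∈ p.asIdeal ^ a) ∧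
      3 ^ 8 * ((B.b : 𝓞 k) ^ 6 * m) -
        π ^ (8 * ordp p (Ideal.span {(3 : 𝓞 k)})) * mm f ∈ p.asIdeal ^ a := by
  set e := ordp p (Ideal.span {(3 : 𝓞 k)}) with he
  have h1 : ∀ i, F i ∈ p.asIdeal ^ (2 * e) := by
    intro i
    have h2 : Ideal.span {(9 : 𝓞 k)} ⊔ p.asIdeal ^ M ≤ p.asIdeal ^ (2 * e) :=
      sup_le ((Ideal.span_singleton_le_iff_mem _).2 (nine_mem hv p))
        (Ideal.pow_le_pow_right (by omega))
    exact h2 (h i)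
  choose f hf using fun i => hπ.div (2 * e) a (F i) (h1 i)
  refine ⟨f, hf, ?_⟩
  have h2 := mm_congr (p.asIdeal ^ a) F (fun i => π ^ (2 * e) * f i) hf
  rw [mm_smul, hm] at h2
  have h3 : (B.kap : 𝓞 k) = 3 ^ 8 * (B.b : 𝓞 k) ^ 6 := by
    rw [BFr.kap]
    push_cast
    ring
  rw [h3] at h2
  have h4 : 3 ^ 8 * ((B.b : 𝓞 k) ^ 6 * m) - π ^ (8 * e) * mm f =
      3 ^ 8 * (B.b : 𝓞 k) ^ 6 * m - (π ^ (2 * e)) ^ 4 * mm f := by
    rw [← pow_mul, show 2 * e * 4 = 8 * e by ring]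
    ring
  rw [h4]
  exact h2

/-- the second kind: `mm F` is `3 ^ 8` times a unit. -/
lemma second (hv : VpiStmt) (p : HeightOneSpectrum (𝓞 k)) (M : ℕ)
    (hM : 8 * ordp p (Ideal.span {(3 : 𝓞 k)}) + 1 ≤ M) (h F : Q4 (𝓞 k)) (hc : HCyc p M h)
    (B : BFr k) (m : 𝓞 k) (hm : mm F = (B.kap : 𝓞 k) * m) (ho : InOrb p M h F) :
    m ∉ p.asIdeal := by
  intro hmp
  obtain ⟨x, y, z, w, hd, hF⟩ := ho
  set δ := x * w - y * z with hδ
  have h1 := mm_congr (p.asIdeal ^ M) (fun i => δ * F i) (gact h x y z w) hF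
  rw [mm_smul, mm_gact, ← hδ, hm] at h1
  have h3 : (B.kap : 𝓞 k) = 3 ^ 8 * (B.b : 𝓞 k) ^ 6 := by
    rw [BFr.kap]
    push_cast
    ring
  rw [h3] at h1
  have h4 : 3 ^ 8 * (δ ^ 4 * (B.b : 𝓞 k) ^ 6 * m + δ ^ 6) ∈ p.asIdeal ^ M := by
    have h5 := add_mem h1 (Ideal.mul_mem_left _ (δ ^ 6) hc.dis)
    have h6 : 3 ^ 8 * (δ ^ 4 * (B.b : 𝓞 k) ^ 6 * m + δ ^ 6) =
        δ ^ 4 * (3 ^ 8 * (B.b : 𝓞 k) ^ 6 * m) - δ ^ 6 * mm h + δ ^ 6 * (mm h + 3 ^ 8) := by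
      ring
    rw [h6]
    exact h5
  have h5 := cancel3 hv p _ 1 (Ideal.pow_le_pow_right hM h4)
  rw [pow_one] at h5
  have h6 : δ ^ 6 ∈ p.asIdeal := by
    have h7 := sub_mem h5 (Ideal.mul_mem_left _ (δ ^ 4 * (B.b : 𝓞 k) ^ 6) hmp)
    rwa [add_sub_cancel_left] at h7
  exact hd (p.isPrime.mem_of_pow_mem 6 h6)

end Pool.Agent.LeoD.H24
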