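import Pool.Agent.Helper24_LeoD.L3

/-!
Squad leod, module LDE: the density at the primes above 3 in `E`.
-/

set_option autoImplicit false

open NumberField IsDedekindDomain Module
open Pool.Agent.LeoK Pool.Agent.LeoG Pool.Agent.LeoC

namespace Pool.Agent.LeoD.H24

/-- LDE -/
theorem lde (hvpi : VpiStmt) (hgsc : GscStmt) (hdrt : DrtStmt) (hdbc : DbcStmt) (hbfn : BfnStmt)
    (hfun : FunStmt) : LdeStmt := by
  intro k _ _ M h B E p hM hc h3 hpE
  obtain ⟨hb0, hbb, hcc, -, h6, -⟩ := hbfn k B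
  have h6p : (6 : 𝓞 k) ∈ p.asIdeal := by
    have h1 := Ideal.mul_mem_left p.asIdeal (2 : 𝓞 k) h3
    have h2 : (2 : 𝓞 k) * 3 = 6 := by norm_num
    rwa [h2] at h1
  obtain ⟨hb, hbbp, hccp⟩ := h6 p h6p
  have h2p : (2 : 𝓞 k) ∉ p.asIdeal := by
    intro h2
    apply p.isPrime.ne_top
    rw [Ideal.eq_top_iff_one]
    have h1 := sub_mem h3 h2
    have e1 : (3 : 𝓞 k) - 2 = 1 := by norm_num
    rwa [e1] at h1
  have hq2 : 2 ≤ np p := (hvpi k).2.2.2.2.2.1 p
  have hen : ordp p (Ideal.span {(3 : 𝓞 k)}) ≤ finrank ℚ k := (hvpi k).2.2.2.2.1 p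
  have hn1 : 1 ≤ finrank ℚ k := Module.finrank_pos
  obtain ⟨π, hπ⟩ := (hvpi k).2.2.2.2.2.2 p
  have hob : ordp p B.bb = 0 := ordp_eq_zero hvpi p _ hbb hbbp
  have hobb : ordp p (Ideal.span {(B.b : 𝓞 k)}) = 0 := by
    apply ordp_eq_zero hvpi p
    · rw [Ne, Ideal.span_singleton_eq_bot]
      exact Nat.cast_ne_zero.2 hb0.ne'
    · rw [Ideal.span_singleton_le_iff_mem]
      exact hb
  set e := ordp p (Ideal.span {(3 : 𝓞 k)}) with he
  set T : Set (Q4 (𝓞 k)) := {f | mm f ∈ p.asIdeal ∧ mm f ∉ p.asIdeal ^ 2} with hT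
  have hTD : T ⊆ Dbl p := by
    rintro f ⟨hf1, hf2⟩
    obtain ⟨x, y, z, w, hd, hg2, hg3⟩ := hdrt k p f hf1
    refine ⟨x, y, z, w, hd, ?_⟩
    set g := gact f x y z w with hg
    have hmg : mm g ∉ p.asIdeal ^ 2 := by
      intro hcon
      rw [hg, mm_gact] at hcon
      obtain ⟨t, ht⟩ := H75inv p 2 (x := (x * w - y * z) ^ 6)
        (fun h7 => hd (p.isPrime.mem_of_pow_mem 6 h7))
      apply hf2
      have e1 : mm f = t * ((x * w - y * z) ^ 6 * mm f) -
          ((x * w - y * z) ^ 6 * t - 1) * mm f := by ring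
      rw [e1]
      exact sub_mem (Ideal.mul_mem_left _ _ hcon) (Ideal.mul_mem_right _ _ ht)
    have hexp : mm g = -(g 1 ^ 2 * g 2 ^ 2) + 4 * g 0 * g 2 ^ 3 + 4 * g 1 ^ 3 * g 3 +
        27 * g 0 ^ 2 * g 3 ^ 2 - 18 * g 0 * g 1 * g 2 * g 3 := by
      simp only [mm, dsc]
      ring
    have s2 : ∀ a b : 𝓞 k, a ∈ p.asIdeal → b ∈ p.asIdeal → a * b ∈ p.asIdeal ^ 2 := by
      intro a b ha hb
      rw [pow_two]
      exact Ideal.mul_mem_mul ha hb
    have t22 := s2 _ _ hg2 hg2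
    have t23 := s2 _ _ hg2 hg3
    have t33 := s2 _ _ hg3 hg3
    refine ⟨fun hB => hmg ?_, hg2, hg3, fun hD => hmg ?_⟩
    · have t13 := s2 _ _ hB hg3
      have e1 : mm g = (-(g 1 ^ 2) + 4 * g 0 * g 2) * (g 2 * g 2) +
          (4 * g 1 ^ 2) * (g 1 * g 3) + (27 * g 0 ^ 2) * (g 3 * g 3) -
          (18 * g 0 * g 1) * (g 2 * g 3) := by
        rw [hexp]
        ring
      rw [e1]
      exact sub_mem (add_mem (add_mem (Ideal.mul_mem_left _ _ t22) (Ideal.mul_mem_left _ _ t13))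
        (Ideal.mul_mem_left _ _ t33)) (Ideal.mul_mem_left _ _ t23)
    · have e1 : mm g = (-(g 1 ^ 2) + 4 * g 0 * g 2) * (g 2 * g 2) +
          (4 * g 1 ^ 3) * g 3 + (27 * g 0 ^ 2) * (g 3 * g 3) -
          (18 * g 0 * g 1) * (g 2 * g 3) := by
        rw [hexp]
        ring
      rw [e1]
      exact sub_mem (add_mem (add_mem (Ideal.mul_mem_left _ _ t22) (Ideal.mul_mem_left _ _ hD))
        (Ideal.mul_mem_left _ _ t33)) (Ideal.mul_mem_left _ _ t23)
  refine ⟨8 * e + 2, modQ (p.asIdeal ^ (8 * e + 2)) ''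
    {F | ∃ f ∈ T, ∀ i, F i - π ^ (2 * e) * f i ∈ p.asIdeal ^ (8 * e + 2)}, ?_, ?_⟩
  · intro F m hF hm hfd hmE
    have hmp : m ∈ p.asIdeal := (hmE h3).2 hpE
    obtain ⟨-, hmc, hm2, -⟩ := hfun k B.cc m hcc hfd
    have hmp2 : m ∉ p.asIdeal ^ 2 := by
      intro hcon
      apply hm2 p h2p
      have hcop : IsCoprime (B.cc ^ 2) (p.asIdeal ^ 2) := by
        apply IsCoprime.pow
        rw [Ideal.isCoprime_iff_sup_eq, sup_comm]
        by_contra hne
        apply hccp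
        have hmax : p.asIdeal.IsMaximal := p.isMaximal
        have h7 := hmax.eq_of_le hne le_sup_left
        rw [h7]
        exact le_sup_right
      rw [mul_pow, ← Ideal.inf_eq_mul_of_isCoprime hcop]
      exact ⟨hmc, hcon⟩
    rcases hF.thr p h3 with ⟨hA, -⟩ | hB
    · obtain ⟨f, hf, hmf⟩ := first hvpi p π hπ M (8 * e + 2) (by omega) (by omega) F B m hm hA
      refine ⟨F, ⟨f, ⟨?_, ?_⟩, hf⟩, rfl⟩
      · have h7 : π ^ (8 * e) * mm f ∈ p.asIdeal ^ (8 * e + 1) := by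
          have h8 : 3 ^ 8 * ((B.b : 𝓞 k) ^ 6 * m) ∈ p.asIdeal ^ (8 * e + 1) := by
            rw [pow_add, pow_one]
            exact Ideal.mul_mem_mul (three8_mem hvpi p) (Ideal.mul_mem_left _ _ hmp)
          have h9 := sub_mem h8 (Ideal.pow_le_pow_right (by omega : 8 * e + 1 ≤ 8 * e + 2) hmf)
          rwa [sub_sub_cancel] at h9
        have h8 := (hπ.iff (8 * e) 1 (mm f)).1 h7
        rwa [pow_one] at h8
      · intro hcon
        have h7 : π ^ (8 * e) * mm f ∈ p.asIdeal ^ (8 * e + 2) := (hπ.iff (8 * e) 2 (mm f)).2 hcon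
        have h8 := add_mem hmf h7
        rw [sub_add_cancel] at h8
        have h9 := cancel3 hvpi p _ 2 h8
        obtain ⟨t, ht⟩ := H75inv p 2 (x := (B.b : 𝓞 k) ^ 6)
          (fun h7 => hb (p.isPrime.mem_of_pow_mem 6 h7))
        apply hmp2
        have e1 : m = t * ((B.b : 𝓞 k) ^ 6 * m) - ((B.b : 𝓞 k) ^ 6 * t - 1) * m := by ring
        rw [e1]
        exact sub_mem (Ideal.mul_mem_left _ _ h9) (Ideal.mul_mem_right _ _ ht)
    · exact absurd hmp (second hvpi p M (by omega) (h p) F hc B m hm hB)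
  · have h7 := hgsc k p π (fun _ => 2 * e) (8 * e + 2) 2 T hπ (fun _ => by omega)
    have hfin : (modQ (p.asIdeal ^ 2) '' Dbl p).Finite := by
      have : Finite (𝓞 k ⧸ p.asIdeal ^ 2) :=
        Ideal.finiteQuotientOfFreeOfNeBot _ (pow_ne_zero 2 p.ne_bot)
      exact Set.toFinite _
    have h8 : ((modQ (p.asIdeal ^ 2) '' T).ncard : ℝ) ≤ np p ^ 4 * (np p - 1) ^ 2 * (np p + 1) := by
      refine le_trans ?_ (hdbc k p)
      exact_mod_cast Set.ncard_le_ncard (Set.image_mono hTD) hfin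
    refine h7.trans ?_
    have hq0 : 0 < np p := by linarith
    rw [dD, dE, if_pos h3, if_pos hpE, hob, hobb, ← he]
    have e2 : ∑ _i : Fin 4, 2 * e + 4 * 2 = 8 * e + 8 := by
      simp only [Finset.sum_const, Finset.card_univ, Fintype.card_fin, smul_eq_mul]
      ring
    rw [e2]
    refine (mul_le_mul_of_nonneg_left h8 (by positivity)).trans (le_of_eq ?_)
    rw [mul_zero, mul_zero, add_zero, pow_zero, pow_add _ (8 * e) 8]
    field_simp
    ring

end Pool.Agent.LeoD.H24
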