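import Pool.Agent.Helper24_LeoD.L3

/-!
Squad leod, module LDN: the density at the primes above 3 not in `E`.
-/

set_option autoImplicit false

open NumberField IsDedekindDomain Module
open Pool.Agent.LeoK Pool.Agent.LeoG Pool.Agent.LeoC

namespace Pool.Agent.LeoD.H24

/-- the residue classes modulo `p` of forms with nonzero discriminant and with a zero. -/
lemma lt3_bound {k : Type} [Field k] [NumberField k] (hlt3 : Lt3Stmt)
    (p : HeightOneSpectrum (𝓞 k)) (h3 : (3 : 𝓞 k) ∈ p.asIdeal) :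
    3 * ((modQ p.asIdeal '' {f : Q4 (𝓞 k) | mm f ∉ p.asIdeal ∧
      ∃ x y : 𝓞 k, ¬ (x ∈ p.asIdeal ∧ y ∈ p.asIdeal) ∧ gval f x y ∈ p.asIdeal}).ncard : ℝ) ≤
      2 * (np p ^ 4 * (1 - 1 / np p ^ 2) * (1 - 1 / np p)) := by
  classical
  have hmax : p.asIdeal.IsMaximal := p.isMaximal
  letI : Field (𝓞 k ⧸ p.asIdeal) := Ideal.Quotient.field p.asIdeal
  have hfin : Finite (𝓞 k ⧸ p.asIdeal) := Ideal.finiteQuotientOfFreeOfNeBot _ p.ne_bot
  letI : Fintype (𝓞 k ⧸ p.asIdeal) := Fintype.ofFinite _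
  have h30 : (3 : 𝓞 k ⧸ p.asIdeal) = 0 := by
    have h := Ideal.Quotient.eq_zero_iff_mem.2 h3
    rwa [map_ofNat] at h
  have h := hlt3 (𝓞 k ⧸ p.asIdeal) h30
  have hcard : (Fintype.card (𝓞 k ⧸ p.asIdeal) : ℝ) = np p := by
    rw [np, Ideal.absNorm_apply, Submodule.cardQuot_apply, ← Nat.card_eq_fintype_card]
  rw [hcard] at h
  refine le_trans ?_ h
  refine mul_le_mul_of_nonneg_left ?_ (by norm_num)
  have hsub : (modQ p.asIdeal '' {f : Q4 (𝓞 k) | mm f ∉ p.asIdeal ∧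
      ∃ x y : 𝓞 k, ¬ (x ∈ p.asIdeal ∧ y ∈ p.asIdeal) ∧ gval f x y ∈ p.asIdeal}) ⊆
      {v : Q4 (𝓞 k ⧸ p.asIdeal) | dsc v ≠ 0 ∧
        ∃ x y : 𝓞 k ⧸ p.asIdeal, (x ≠ 0 ∨ y ≠ 0) ∧ gval v x y = 0} := by
    rintro _ ⟨f, ⟨hf1, x, y, hxy, hg⟩, rfl⟩
    refine ⟨fun hd => hf1 ?_, Ideal.Quotient.mk _ x, Ideal.Quotient.mk _ y, ?_, ?_⟩
    · rw [mm, neg_mem_iff, ← Ideal.Quotient.eq_zero_iff_mem, ← hd]
      simp only [dsc, modQ, map_add, map_sub, map_mul, map_pow, map_ofNat]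
    · by_contra hcon
      push Not at hcon
      exact hxy ⟨Ideal.Quotient.eq_zero_iff_mem.1 hcon.1, Ideal.Quotient.eq_zero_iff_mem.1 hcon.2⟩
    · have h5 := Ideal.Quotient.eq_zero_iff_mem.2 hg
      rw [← h5]
      simp only [gval, modQ, map_add, map_mul, map_pow]
  have h6 : (modQ p.asIdeal '' {f : Q4 (𝓞 k) | mm f ∉ p.asIdeal ∧
      ∃ x y : 𝓞 k, ¬ (x ∈ p.asIdeal ∧ y ∈ p.asIdeal) ∧ gval f x y ∈ p.asIdeal}).ncard ≤
      Nat.card {v : Q4 (𝓞 k ⧸ p.asIdeal) // dsc v ≠ 0 ∧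
        ∃ x y : 𝓞 k ⧸ p.asIdeal, (x ≠ 0 ∨ y ≠ 0) ∧ gval v x y = 0} := by
    refine (Set.ncard_le_ncard hsub (Set.toFinite _)).trans (le_of_eq ?_)
    rfl
  exact_mod_cast h6

/-- LDN -/
theorem ldn (hvpi : VpiStmt) (hgsc : GscStmt) (hlt3 : Lt3Stmt) (horb : OrbStmt)
    (hbfn : BfnStmt) : LdnStmt := by
  intro k _ _ M h B E p hM hc h3 hpE
  obtain ⟨hb0, hbb, hcc, -, h6, -⟩ := hbfn k B
  have h6p : (6 : 𝓞 k) ∈ p.asIdeal := by
    have h1 := Ideal.mul_mem_left p.asIdeal (2 : 𝓞 k) h3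
    have h2 : (2 : 𝓞 k) * 3 = 6 := by norm_num
    rwa [h2] at h1
  obtain ⟨hb, hbbp, hccp⟩ := h6 p h6p
  have hq2 : 2 ≤ np p := (hvpi k).2.2.2.2.2.1 p
  have hen : ordp p (Ideal.span {(3 : 𝓞 k)}) ≤ finrank ℚ k := (hvpi k).2.2.2.2.1 p
  have hn1 : 1 ≤ finrank ℚ k := Module.finrank_pos
  obtain ⟨π, hπ⟩ := (hvpi k).2.2.2.2.2.2 p
  have hob : ordp p B.bb = 0 := ordp_eq_zero hvpi p _ hbb hbbp
  have hobb : ordp p (Ideal.span {(B.b : 𝓞 k)}) = 0 := by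
    apply ordp_eq_zero hvpi p
    · rw [Ne, Ideal.span_singleton_eq_bot]
      exact Nat.cast_ne_zero.2 hb0.ne'
    · rw [Ideal.span_singleton_le_iff_mem]
      exact hb
  have horb' := horb k p M (h p) h3 hM hc
  set e := ordp p (Ideal.span {(3 : 𝓞 k)}) with he
  set T : Set (Q4 (𝓞 k)) := {f : Q4 (𝓞 k) | mm f ∉ p.asIdeal ∧
      ∃ x y : 𝓞 k, ¬ (x ∈ p.asIdeal ∧ y ∈ p.asIdeal) ∧ gval f x y ∈ p.asIdeal} with hT
  refine ⟨M, modQ (p.asIdeal ^ M) ''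
    {F | ∃ f ∈ T, ∀ i, F i - π ^ (2 * e) * f i ∈ p.asIdeal ^ M} ∪
      modQ (p.asIdeal ^ M) '' {F | InOrb p M (h p) F}, ?_, ?_⟩
  · intro F m hF hm hfd hmE
    have hmp : m ∉ p.asIdeal := fun hcon => hpE ((hmE h3).1 hcon)
    rcases hF.thr p h3 with ⟨hA, x, y, hxy, hg⟩ | hB
    · left
      obtain ⟨f, hf, hmf⟩ := first hvpi p π hπ M M le_rfl (by omega) F B m hm hA
      refine ⟨F, ⟨f, ⟨?_, x, y, hxy, ?_⟩, hf⟩, rfl⟩
      · intro hcon
        have h7 : π ^ (8 * e) * mm f ∈ p.asIdeal ^ (8 * e + 1) :=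
          (hπ.iff (8 * e) 1 (mm f)).2 (by rwa [pow_one])
        have h8 := add_mem (Ideal.pow_le_pow_right (by omega : 8 * e + 1 ≤ M) hmf) h7
        rw [sub_add_cancel] at h8
        have h9 := cancel3 hvpi p _ 1 h8
        rw [pow_one] at h9
        rcases p.isPrime.mem_or_mem h9 with h10 | h10
        · exact hb (p.isPrime.mem_of_pow_mem 6 h10)
        · exact hmp h10
      · have h7 : Ideal.span {(9 : 𝓞 k)} * p.asIdeal ⊔ p.asIdeal ^ M ≤
            p.asIdeal ^ (2 * e + 1) := by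
          refine sup_le ?_ (Ideal.pow_le_pow_right (by omega))
          rw [pow_succ]
          exact Ideal.mul_mono_left ((Ideal.span_singleton_le_iff_mem _).2 (nine_mem hvpi p))
        have h8 := gval_congr (p.asIdeal ^ M) F (fun i => π ^ (2 * e) * f i) hf x y
        rw [gval_smul] at h8
        have h9 := sub_mem (h7 hg) (Ideal.pow_le_pow_right (by omega : 2 * e + 1 ≤ M) h8)
        rw [sub_sub_cancel] at h9
        have h10 := (hπ.iff (2 * e) 1 (gval f x y)).1 h9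
        rwa [pow_one] at h10
    · right
      exact ⟨F, hB, rfl⟩
  · have h7 := hgsc k p π (fun _ => 2 * e) M 1 T hπ (fun _ => by omega)
    have h8 := lt3_bound hlt3 p h3
    rw [← hT] at h8
    rw [pow_one p.asIdeal] at h7
    have hq0 : 0 < np p := by linarith
    have e2 : ∑ _i : Fin 4, 2 * e + 4 * 1 = 8 * e + 4 := by
      simp only [Finset.sum_const, Finset.card_univ, Fintype.card_fin, smul_eq_mul]
      ring
    rw [e2] at h7
    have h9 : ((modQ (p.asIdeal ^ M) ''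
        {F | ∃ f ∈ T, ∀ i, F i - π ^ (2 * e) * f i ∈ p.asIdeal ^ M} ∪
        modQ (p.asIdeal ^ M) '' {F | InOrb p M (h p) F}).ncard : ℝ) ≤
        ((modQ (p.asIdeal ^ M) ''
          {F | ∃ f ∈ T, ∀ i, F i - π ^ (2 * e) * f i ∈ p.asIdeal ^ M}).ncard : ℝ) +
        ((modQ (p.asIdeal ^ M) '' {F | InOrb p M (h p) F}).ncard : ℝ) := by
      exact_mod_cast Set.ncard_union_le _ _
    refine h9.trans ?_
    rw [dD, dE, if_pos h3, if_neg hpE, hob, hobb, ← he, mul_zero, mul_zero, add_zero, pow_zero]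
    set W := ((modQ p.asIdeal '' T).ncard : ℝ) with hW
    set O := ((modQ (p.asIdeal ^ M) '' {F | InOrb p M (h p) F}).ncard : ℝ) with hO
    have h10 : np p ^ (4 * M) / np p ^ (8 * e + 4) * W ≤
        2 / 3 * (np p ^ (4 * M) * ((1 - 1 / np p ^ 2) * (1 - 1 / np p) * (1 / np p ^ (8 * e)))) := by
      have h11 : W ≤ 2 / 3 * (np p ^ 4 * (1 - 1 / np p ^ 2) * (1 - 1 / np p)) := by linarith
      refine (mul_le_mul_of_nonneg_left h11 (by positivity)).trans (le_of_eq ?_)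
      rw [pow_add _ (8 * e) 4]
      field_simp
    have h12 : O ≤
        1 / 3 * (np p ^ (4 * M) * ((1 - 1 / np p ^ 2) * (1 - 1 / np p) * (1 / np p ^ (8 * e)))) := by
      have hpos : 0 < 3 * np p ^ (8 * e) := by positivity
      have h13 : O ≤ (np p ^ (4 * M) * (1 - 1 / np p) * (1 - 1 / np p ^ 2)) /
          (3 * np p ^ (8 * e)) := by
        rw [le_div_iff₀ hpos, mul_comm]
        exact horb'
      refine h13.trans (le_of_eq ?_)
      field_simp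
    linarith

end Pool.Agent.LeoD.H24
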